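import Pool.Agent.Lib.MP_340815_al.H64.M3
import Pool.Agent.Lib.MP_340815_al.H86.M2

/-!
# MP_340815_al: the combinatorial module M3 with the explicit defining graph, and the resulting
explicit theorem

The proof of `m3Explicit` is the proof of `m3Statement` (helper64) with the defining graph `Delta`
in the statement.
-/

set_option autoImplicit false

namespace Pool.Agent.MP_340815_al.Cert

open Pool.Agent.MP_340815_al Pool.Agent.MP_340815_al.H75

/-- Module M3 with the explicit defining graph. -/
theorem m3Explicit :
    ∃ g : UType Gam 3 → UType Gam 3 → H75.Raag Delta,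
      (∀ p q r, p ≤ q → q ≤ r → g p q * g q r = g p r) ∧
      (∃ p0, ∀ p, Relation.EqvGen (fun p q => p ≤ q ∧ g p q = 1) p0 p) ∧
      Subgroup.closure {a : H75.Raag Delta | ∃ p q, p ≤ q ∧ g p q = a} = ⊤ ∧
      ∀ (K : Type) [Group K] (h : UType Gam 3 → UType Gam 3 → K),
        (∀ p q r, p ≤ q → q ≤ r → h p q * h q r = h p r) →
        ∃ (u : UType Gam 3 → K) (φ : H75.Raag Delta →* K),
          ∀ p q, p ≤ q → h p q = (u p)⁻¹ * φ (g p q) * u q := by
  obtain ⟨g, hg, hgl⟩ := exists_cocycle labD labD_symm labD_sq
  have hgl' : ∀ j b c, j < 26 → b < 23 → c < 23 → vm j b c = true →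
      g (T (src j) b c) (T (dst j) b c) = ev genD (lw j b c) := by
    intro j b c hj hb hc hv
    rw [hgl _ _ _ _ (mv_src_dst hj) ((okT_src hj).2 ⟨hb, hc, hv⟩)]
    unfold labD
    rw [hOf_src_dst hj]
  have hle' : ∀ j b c, j < 26 → b < 23 → c < 23 → vm j b c = true →
      T (src j) b c ≤ T (dst j) b c := fun j b c hj hb hc hv =>
    T_le ((okT_src hj).2 ⟨hb, hc, hv⟩) (okT_dst hj hb hc hv) (Or.inr (mv_src_dst hj))
      (Or.inl rfl) (Or.inl rfl)
  have htriv : ∀ j b c, j < 26 → b < 23 → c < 23 → vm j b c = true → rea j b c = 0 →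
      lw j b c = [] := by
    have aux : ∀ j b c, j < 26 → b ≤ c → c < 23 → vm j b c = true → rea j b c = 0 →
        lw j b c = [] := by
      intro j b c hj hbc hc hv hr
      have hm := chkMove_all j b c hj hbc hc
      unfold chkMove at hm
      rw [hv, beqT.2 hr] at hm
      simp only [cond_true] at hm
      exact labn_word_zero (beqT.1 hm)
    intro j b c hj hb hc hv hr
    rcases le_total b c with hbc | hbc
    · exact aux j b c hj hbc hc hv hr
    · rw [lw_comm]
      exact aux j c b hj hbc hb ((vm_comm _ _ _).1 hv) (by rw [rea_comm]; exact hr)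
  refine ⟨g, hg, ⟨rootP, ?_⟩, ?_, ?_⟩
  · -- connectedness through trivial labels
    intro p
    generalize hd : dep (scP p) = D
    induction D using Nat.strong_induction_on generalizing p with
    | _ D ih =>
    by_cases hp : p = rootP
    · rw [hp]; exact Relation.EqvGen.refl _
    · obtain ⟨h1, j, x, y, hj, hx, hy, hv, hr, h2⟩ := parP_spec p hp
      refine Relation.EqvGen.trans _ _ _ (ih _ (hd ▸ h1) (parP p) rfl) ?_
      have hone : g (T (src j) x y) (T (dst j) x y) = 1 := by
        rw [hgl' j x y hj hx hy hv, htriv j x y hj hx hy hv hr, ev_nil]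
      rcases h2 with ⟨e1, e2⟩ | ⟨e1, e2⟩
      · rw [e1, ← e1, e2]
        refine Relation.EqvGen.symm _ _ (Relation.EqvGen.rel _ _ ?_)
        rw [e1]
        exact ⟨hle' j x y hj hx hy hv, hone⟩
      · rw [e2]
        refine Relation.EqvGen.rel _ _ ?_
        rw [e1]
        exact ⟨hle' j x y hj hx hy hv, hone⟩
  · -- the values of `g` generate
    rw [eq_top_iff, ← genD_closure, Subgroup.closure_le]
    rintro _ ⟨i, rfl⟩
    by_cases hi : i < 10
    · have key : allB (fun i => bif Nat.blt (gh i) 26 then bif Nat.blt (gb i) 23 then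
          bif Nat.blt (gc i) 23 then bif vm (gh i) (gb i) (gc i) then
            isLet (2 * i) (lw (gh i) (gb i) (gc i)) else false else false else false
          else false) 10 = true := by decide +kernel
      have hk := allB_spec key i hi
      cases k1 : Nat.blt (gh i) 26 with
      | false => rw [k1] at hk; simp at hk
      | true =>
      cases k2 : Nat.blt (gb i) 23 with
      | false => rw [k1, k2] at hk; simp at hk
      | true =>
      cases k3 : Nat.blt (gc i) 23 with
      | false => rw [k1, k2, k3] at hk; simp at hk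
      | true =>
      cases k4 : vm (gh i) (gb i) (gc i) with
      | false => rw [k1, k2, k3, k4] at hk; simp at hk
      | true =>
      rw [k1, k2, k3, k4] at hk
      simp only [cond_true] at hk
      have l1 : gh i < 26 := by simpa [Nat.blt] using k1
      have l2 : gb i < 23 := by simpa [Nat.blt] using k2
      have l3 : gc i < 23 := by simpa [Nat.blt] using k3
      apply Subgroup.subset_closure
      refine ⟨_, _, hle' _ _ _ l1 l2 l3 k4, ?_⟩
      rw [hgl' _ _ _ l1 l2 l3 k4, isLet_iff hk, ev_cons, ev_nil, mul_one, letter_even]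
    · have : genD i = 1 := by unfold genD; rw [dif_neg hi]
      rw [this]
      exact one_mem _
  · -- the universal property
    intro K _ h hh
    obtain ⟨u, hu⟩ := exists_gauge h hh
    let h' : UType Gam 3 → UType Gam 3 → K := fun p q => u p * h p q * (u q)⁻¹
    have hh' : ∀ p q r, p ≤ q → q ≤ r → h' p q * h' q r = h' p r := by
      intro p q r hpq hqr
      simp only [h']
      rw [← hh p q r hpq hqr]
      group
    have S := sys_of_cocycle h' hh' hu
    let H : ℕ → ℕ → ℕ → K := fun j b c => h' (T (src j) b c) (T (dst j) b c)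
    let x : ℕ → K := fun i => if i < 10 then gam H i else 1
    have hxc : Comm commD x := by
      apply comm_of_pairs
      intro p hp
      have h1 := S.comm _ _ (pairs_raagC p hp)
      have hlt : ∀ p ∈ pairs, p.1 < 10 ∧ p.2 < 10 := by decide
      obtain ⟨p1, p2⟩ := hlt p hp
      simp only [x, if_pos p1, if_pos p2]
      exact h1
    obtain ⟨φ, hφ⟩ := exists_hom x hxc (fun i hi => if_neg (by omega))
    refine ⟨u, φ, fun p q hpq => ?_⟩
    -- letters of the words are below 20
    have hw : ∀ j b c, j < 26 → b < 23 → c < 23 → vm j b c = true →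
        ev x (lw j b c) = ev (gam H) (lw j b c) := by
      intro j b c _ _ _ _
      have key : allB (fun k => (word k).all (fun l => Nat.blt (l / 2) 10)) 256 = true := by
        decide +kernel
      have hlt : labn j b c < 256 := byte_lt _ _
      have hall := allB_spec key _ hlt
      have haux : ∀ w : List ℕ, w.all (fun l => Nat.blt (l / 2) 10) = true →
          ev x w = ev (gam H) w := by
        intro w
        induction w with
        | nil => intro _; rfl
        | cons l w ih =>
          intro hw
          rw [List.all_cons, Bool.and_eq_true] at hw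
          have hl : l / 2 < 10 := by simpa [Nat.blt] using hw.1
          have hle : letter x l = letter (gam H) l := by
            unfold letter
            simp only [x, if_pos hl]
          rw [ev_cons, ev_cons, ih hw.2, hle]
      exact haux _ hall
    have hgφ : ∀ p q r, p ≤ q → q ≤ r → φ (g p q) * φ (g q r) = φ (g p r) := by
      intro p q r h1 h2
      rw [← map_mul, hg p q r h1 h2]
    have hext := cocycle_ext (fun p q => φ (g p q)) h' hgφ hh' (by
      intro a b c d hab hok
      obtain ⟨j1, j2, j3⟩ := hOf_spec hab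
      obtain ⟨-, hc, hd, -⟩ := (okT_iff _ _ _).1 hok
      have hv : vm (hOf a b) c d = true := by
        rw [← j2] at hok
        exact ((okT_src j1).1 hok).2.2
      have e1 := hgl' _ _ _ j1 hc hd hv
      have e2 := S.eq_ev _ _ _ j1 hc hd hv
      rw [j2, j3] at e1
      simp only [j2, j3] at e2
      show φ (g (T a c d) (T b c d)) = _
      rw [e1, ev_map_hom, e2]
      have : (fun i => φ (genD i)) = x := funext hφ
      rw [this]
      exact hw _ _ _ j1 hc hd hv) p q hpq
    have hext' : φ (g p q) = u p * h p q * (u q)⁻¹ := hext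
    rw [hext']
    group

/-- **The fundamental group at every base point.** -/
theorem pi1Explicit (x : Conf Gam 3) :
    Nonempty (FundamentalGroup (Conf Gam 3) x ≃* H75.Raag Delta) := by
  obtain ⟨g, hg, ⟨p0, hconn⟩, hgen, huniv⟩ := m3Explicit
  obtain ⟨s, hs, hsc, hsurj⟩ := Pool.Agent.Lib.MP_340815_al.H86.m2Statement
  exact Pool.Agent.Lib.MP_340815_al.Strat.pi1_equiv hs hsc hsurj g hg p0 hconn hgen huniv x

/-- The configuration space is path connected. -/
theorem conf_pathConnected : PathConnectedSpace (Conf Gam 3) := by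
  obtain ⟨g, -, ⟨p0, hconn⟩, -, -⟩ := m3Explicit
  obtain ⟨s, -, hsc, hsurj⟩ := Pool.Agent.Lib.MP_340815_al.H86.m2Statement
  obtain ⟨x0, hx0⟩ := hsurj p0
  have hin : ∀ (p : UType Gam 3) (x y : Conf Gam 3), p ≤ s x → p ≤ s y → Joined x y := by
    intro p x y hx hy
    exact ((hsc p).isPathConnected.joinedIn x hx y hy).joined
  have key : ∀ p q, Relation.EqvGen (fun p q => p ≤ q ∧ g p q = 1) p q →
      ∀ x y : Conf Gam 3, p ≤ s x → q ≤ s y → Joined x y := by
    intro p q h
    induction h with
    | rel a b h => exact fun x y hx hy => hin a x y hx (h.1.trans hy)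
    | refl a => exact fun x y hx hy => hin a x y hx hy
    | symm a b _ ih => exact fun x y hx hy => (ih y x hy hx).symm
    | trans a b c _ _ ih1 ih2 =>
      intro x y hx hy
      obtain ⟨z, hz⟩ := hsurj b
      exact (ih1 x z hx hz.ge).trans (ih2 z y hz.ge hy)
  have h0 : ∀ x : Conf Gam 3, Joined x0 x := fun x => key _ _ (hconn (s x)) x0 x hx0.ge le_rfl
  exact ⟨⟨x0⟩, fun x y => (h0 x).symm.trans (h0 y)⟩

end Pool.Agent.MP_340815_al.Cert
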